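import Pool.Agent.P.MP_25e1d2_co.Main

/-!
General tools for the classification of the patterns that can be added to the finite sums system:
a construction along an ultrafilter for words whose suffix sums stay in a finite set, and the
images of a two-sided idempotent under linear forms.
-/

set_option autoImplicit false

namespace Pool.Agent.P.MP_25e1d2_co

open Filter Set

attribute [local instance] Ultrafilter.add Ultrafilter.addSemigroup

theorem pure_zero_add (q : Ultrafilter ℤ) : (pure 0 : Ultrafilter ℤ) + q = q := by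
  refine Ultrafilter.coe_inj.mp (Filter.ext' fun p => ?_)
  rw [Ultrafilter.eventually_add]
  simp

theorem add_pure_zero (q : Ultrafilter ℤ) : q + (pure 0 : Ultrafilter ℤ) = q := by
  refine Ultrafilter.coe_inj.mp (Filter.ext' fun p => ?_)
  rw [Ultrafilter.eventually_add]
  simp

/-- One sequence serves all words whose suffix sums stay in the finite set `Q`. -/
theorem construct_words {G : Type} (U : Ultrafilter G) (Φ : Set (G → ℤ)) (hΦ : Φ.Finite)
    (Q : Set (Ultrafilter ℤ)) (hQ : Q.Finite) (e : Ultrafilter ℤ) (A : ℤ → Prop)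
    (hA : ∀ᶠ t in (e : Filter ℤ), A t) :
    ∃ x : ℕ → G, ∀ (N : ℕ) (f : ℕ → G → ℤ) (σ : ℕ → Ultrafilter ℤ), (∀ n, f n ∈ Φ) →
      (∀ n, σ n ∈ Q) → σ 0 = e → σ N = pure 0 →
      (∀ n < N, σ n = Ultrafilter.map (f n) U + σ (n + 1)) →
      A (∑ n ∈ Finset.range N, f n (x n)) := by
  classical
  let St := {S : Set (ℤ × Ultrafilter ℤ) //
    S.Finite ∧ ∀ p ∈ S, ∀ᶠ t in (p.2 : Filter ℤ), A (p.1 + t)}
  have hex : ∀ S : St, ∃ g : G, ∃ S' : St, ∀ p ∈ S.1, ∀ f ∈ Φ, ∀ q ∈ Q,
      p.2 = Ultrafilter.map f U + q → (p.1 + f g, q) ∈ S'.1 := by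
    rintro ⟨S, hS, hSA⟩
    have h1 : ∀ᶠ g in (U : Filter G), ∀ p ∈ S, ∀ f ∈ Φ, ∀ q ∈ Q,
        p.2 = Ultrafilter.map f U + q → ∀ᶠ t in (q : Filter ℤ), A (p.1 + f g + t) := by
      refine (Filter.eventually_all_finite hS).2 fun p hp => ?_
      refine (Filter.eventually_all_finite hΦ).2 fun f _ => ?_
      refine (Filter.eventually_all_finite hQ).2 fun q _ => ?_
      by_cases h : p.2 = Ultrafilter.map f U + q
      · have h2 := hSA p hp
        rw [h, Ultrafilter.eventually_add] at h2
        simp only [Ultrafilter.coe_map, Filter.eventually_map] at h2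
        filter_upwards [h2] with g hg _
        simpa only [add_assoc] using hg
      · exact Filter.Eventually.of_forall fun g h1 => absurd h1 h
    obtain ⟨g, hg⟩ := h1.exists
    refine ⟨g, ⟨{r | ∃ p ∈ S, ∃ f ∈ Φ, ∃ q ∈ Q, p.2 = Ultrafilter.map f U + q ∧
      r = (p.1 + f g, q)}, ?_, ?_⟩, fun p hp f hf q hq h => ⟨p, hp, f, hf, q, hq, h, rfl⟩⟩
    · refine ((hS.prod (hΦ.prod hQ)).image
        fun w : (ℤ × Ultrafilter ℤ) × (G → ℤ) × Ultrafilter ℤ =>
          (w.1.1 + w.2.1 g, w.2.2)).subset ?_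
      rintro _ ⟨p, hp, f, hf, q, hq, -, rfl⟩
      exact ⟨(p, f, q), ⟨hp, hf, hq⟩, rfl⟩
    · rintro _ ⟨p, hp, f, hf, q, hq, h, rfl⟩
      exact hg p hp f hf q hq h
  choose gf nf hgf using hex
  let S0 : St := ⟨{(0, e)}, Set.finite_singleton _, by
    rintro _ rfl
    simpa using hA⟩
  let st : ℕ → St := fun n => Nat.rec S0 (fun _ S => nf S) n
  refine ⟨fun n => gf (st n), fun N f σ hf hσ h0 hN hrec => ?_⟩
  have key : ∀ n ≤ N, (∑ i ∈ Finset.range n, f i (gf (st i)), σ n) ∈ (st n).1 := by
    intro n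
    induction n with
    | zero =>
      intro _
      rw [h0]
      exact Set.mem_singleton _
    | succ n ih =>
      intro hn
      rw [Finset.sum_range_succ]
      exact hgf (st n) _ (ih (by omega)) (f n) (hf n) _ (hσ _) (hrec n (by omega))
  have h := (st N).2.2 _ (key N le_rfl)
  simp only [hN] at h
  simpa using h

/-- the linear form with coefficients `a` in the first `K` coordinates -/
def form (K : ℕ) (a : ℕ → ℤ) (x : ℕ → ℤ) : ℤ := ∑ j ∈ Finset.range K, a j * x j

theorem form_add (K : ℕ) (a x y : ℕ → ℤ) : form K a (x + y) = form K a x + form K a y := by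
  simp only [form, Pi.add_apply, mul_add, Finset.sum_add_distrib]

theorem form_single (K : ℕ) (a : ℕ → ℤ) {j : ℕ} (hj : j < K) (t : ℤ) :
    form K a (Pi.single j t) = a j * t := by
  unfold form
  rw [Finset.sum_eq_single j]
  · simp
  · intro i _ hi
    simp [Pi.single_eq_of_ne hi]
  · intro h
    exact absurd (Finset.mem_range.2 hj) h

theorem finite_forms (K : ℕ) {T : Set ℤ} (hT : T.Finite) :
    {f | ∃ a : ℕ → ℤ, (∀ j, a j ∈ T) ∧ f = form K a}.Finite := by
  refine ((Set.Finite.pi' (fun _ : Fin K => hT)).image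
    fun b : Fin K → ℤ => fun x : ℕ → ℤ => ∑ j : Fin K, b j * x j).subset ?_
  rintro _ ⟨a, ha, rfl⟩
  refine ⟨fun j => a j, fun j => ha j, ?_⟩
  funext x
  exact (Finset.sum_range fun j => a j * x j).symm

/-- the ordered tensor power -/
noncomputable def tens (d : Ultrafilter ℤ) : ℕ → Ultrafilter (ℕ → ℤ)
  | 0 => pure 0
  | j + 1 => tens d j + Ultrafilter.map (fun t => Pi.single j t) d

/-- its image under a form -/
noncomputable def img (d : Ultrafilter ℤ) (a : ℕ → ℤ) : ℕ → Ultrafilter ℤ
  | 0 => pure 0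
  | j + 1 => img d a j + Ultrafilter.map (fun t => a j * t) d

theorem map_tens (d : Ultrafilter ℤ) (K : ℕ) (a : ℕ → ℤ) :
    ∀ j ≤ K, Ultrafilter.map (form K a) (tens d j) = img d a j := by
  intro j
  induction j with
  | zero =>
    intro _
    simp [tens, img, form]
  | succ j ih =>
    intro hj
    rw [tens, img, map_add_ultra _ (form_add K a), ih (by omega), Ultrafilter.map_map]
    congr 2
    funext t
    exact form_single K a (by omega) t

theorem map_zero_mul (d : Ultrafilter ℤ) : Ultrafilter.map (fun t : ℤ => 0 * t) d = pure 0 := by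
  refine Ultrafilter.coe_inj.mp (Filter.ext' fun p => ?_)
  simp

theorem img_left {d e : Ultrafilter ℤ} {a : ℕ → ℤ} {i : ℕ}
    (hi : Ultrafilter.map (fun t => a i * t) d = e) :
    ∀ j, i < j → (∀ l, i < l → l < j → a l = 0) → img d a j = img d a i + e := by
  intro j
  induction j with
  | zero => intro h; omega
  | succ j ih =>
    intro hj h0
    rcases Nat.lt_succ_iff_lt_or_eq.1 hj with h | h
    · rw [img, h0 j h (by omega), map_zero_mul, add_pure_zero,
        ih h fun l h1 h2 => h0 l h1 (by omega)]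
    · rw [img, ← h, hi]

theorem img_zero {d : Ultrafilter ℤ} {a : ℕ → ℤ} :
    ∀ j, (∀ l, l < j → a l = 0) → img d a j = pure 0 := by
  intro j
  induction j with
  | zero => intro _; rfl
  | succ j ih =>
    intro h0
    rw [img, h0 j (by omega), map_zero_mul, add_pure_zero, ih fun l h => h0 l (by omega)]

theorem img_right {d e : Ultrafilter ℤ} {a : ℕ → ℤ} {i : ℕ}
    (hi : Ultrafilter.map (fun t => a i * t) d = e) (h0 : ∀ l, l < i → a l = 0) :
    ∀ j, i < j → ∃ w, img d a j = e + w := by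
  intro j
  induction j with
  | zero => intro h; omega
  | succ j ih =>
    intro hj
    rcases Nat.lt_succ_iff_lt_or_eq.1 hj with h | h
    · obtain ⟨w, hw⟩ := ih h
      exact ⟨_, by rw [img, hw, add_assoc]⟩
    · exact ⟨pure 0, by rw [img, ← h, hi, img_zero i h0, pure_zero_add, add_pure_zero]⟩

/-- The key algebraic fact in general form. -/
theorem exists_key_forms (K M : ℕ) (hM : 0 < M) :
    ∃ (e : Ultrafilter ℤ) (U : Ultrafilter (ℕ → ℤ)),
      (∀ᶠ x in (e : Filter ℤ), 0 < x) ∧ e + e = e ∧ (∀ x, ∃ z, z + (x + e) = e) ∧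
      ∀ a : ℕ → ℤ, Ultrafilter.map (form K a) U + Ultrafilter.map (form K a) U =
          Ultrafilter.map (form K a) U ∧
        ((∀ l < K, a l = 0) → Ultrafilter.map (form K a) U = pure 0) ∧
        (∀ i < K, a i = M → (∀ l, i < l → l < K → a l = 0) →
          ∃ w, Ultrafilter.map (form K a) U = w + e) ∧
        ∀ i < K, a i = M → (∀ l, l < i → a l = 0) →
          ∃ w, Ultrafilter.map (form K a) U = e + w := by
  obtain ⟨e, hee, ⟨y, hy⟩, hmin⟩ := exists_min_idem (M := Ultrafilter ℤ)
    Ultrafilter.continuous_add_left (Ultrafilter.of (atTop : Filter ℤ))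
  have hdvd : ∀ᶠ x in (e : Filter ℤ), (M : ℤ) ∣ x := by
    have : NeZero M := ⟨hM.ne'⟩
    obtain ⟨r, hr⟩ := Ultrafilter.eq_pure_of_finite
      (Ultrafilter.map (fun x : ℤ => (x : ZMod M)) e)
    have h1 : ∀ᶠ x in (e : Filter ℤ), ((x : ℤ) : ZMod M) = r := by
      have : ∀ᶠ x in (Ultrafilter.map (fun x : ℤ => (x : ZMod M)) e : Filter (ZMod M)),
          x = r := by rw [hr]; simp
      simpa only [Ultrafilter.coe_map, Filter.eventually_map] using this
    have h2 := h1
    rw [← hee, Ultrafilter.eventually_add] at h2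
    obtain ⟨a, ha1, ha2⟩ := (h1.and h2).exists
    obtain ⟨b, hb1, hb2⟩ := (h1.and ha2).exists
    have h3 : r = 0 := by
      rw [Int.cast_add, ha1, hb1] at hb2
      simpa using hb2
    filter_upwards [h1] with x hx
    rw [h3] at hx
    exact (ZMod.intCast_zmod_eq_zero_iff_dvd x M).1 hx
  let d : Ultrafilter ℤ := Ultrafilter.map (fun x => x / (M : ℤ)) e
  have hd : Ultrafilter.map (fun t => (M : ℤ) * t) d = e := by
    refine Ultrafilter.coe_inj.mp ?_
    simp only [d, Ultrafilter.coe_map, Filter.map_map]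
    rw [Filter.map_congr (m₂ := id), Filter.map_id]
    filter_upwards [hdvd] with x hx
    exact Int.mul_ediv_cancel' hx
  obtain ⟨U, hUU, ⟨X, hX⟩, ⟨Y, hY⟩⟩ :=
    exists_idem_both (M := Ultrafilter (ℕ → ℤ)) Ultrafilter.continuous_add_left (tens d K)
  refine ⟨e, U, ?_, hee, hmin, fun a => ⟨?_, fun h0 => ?_, fun i hi ha h0 => ?_,
    fun i hi ha h0 => ?_⟩⟩
  · rw [hy, Ultrafilter.eventually_add]
    refine Filter.Eventually.of_forall fun a => ?_
    refine (Filter.eventually_gt_atTop (-a)).filter_mono (Ultrafilter.of_le _) |>.mono ?_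
    intro b hb
    omega
  · rw [← map_add_ultra _ (form_add K a), hUU]
  · have : form K a = fun _ => 0 := by
      funext x
      exact Finset.sum_eq_zero fun j hj => by rw [h0 j (Finset.mem_range.1 hj), zero_mul]
    rw [this]
    refine Ultrafilter.coe_inj.mp (Filter.ext' fun p => ?_)
    simp
  · refine ⟨Ultrafilter.map (form K a) Y + img d a i, ?_⟩
    rw [add_assoc, ← img_left (by rw [ha]; exact hd) K hi h0, ← map_tens d K a K le_rfl,
      ← map_add_ultra _ (form_add K a), ← hY]
  · obtain ⟨w, hw⟩ := img_right (d := d) (e := e) (a := a) (i := i) (by rw [ha]; exact hd) h0 K hi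
    refine ⟨w + Ultrafilter.map (form K a) X, ?_⟩
    rw [← add_assoc, ← hw, ← map_tens d K a K le_rfl,
      ← map_add_ultra _ (form_add K a), ← hX]

end Pool.Agent.P.MP_25e1d2_co
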