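import Pool.Agent.P.MP_25e1d2_co.Gen1

/-! Sufficiency: patterns whose first and last coefficients are 1. -/

set_option autoImplicit false

namespace Pool.Agent.P.MP_25e1d2_co

open Filter Set

attribute [local instance] Ultrafilter.add Ultrafilter.addSemigroup

/-- the window of `lam` that ends at `n`, read backwards -/
def win (lam : ℕ → ℤ) (n j : ℕ) : ℤ := if j ≤ n then lam (n - j) else 0

theorem sum_win (K N : ℕ) (lam : ℕ → ℤ) (h0 : ∀ i, N ≤ i → lam i = 0) (x : ℕ → ℕ → ℤ) :
    ∑ n ∈ Finset.range (N + K), form K (win lam n) (x n) =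
      ∑ i ∈ Finset.range N, lam i * ∑ j ∈ Finset.range K, x (i + j) j := by
  simp only [form, Finset.mul_sum]
  rw [Finset.sum_comm, Finset.sum_comm (s := Finset.range N)]
  refine Finset.sum_congr rfl fun j hj => ?_
  have hj' := Finset.mem_range.1 hj
  have e1 : N + K = j + (N + (K - j)) := by omega
  rw [e1, Finset.sum_range_add, Finset.sum_range_add, Finset.sum_eq_zero, zero_add,
    Finset.sum_eq_zero (s := Finset.range (K - j)), add_zero]
  · refine Finset.sum_congr rfl fun i _ => ?_
    simp [win, add_comm]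
  · intro i _
    have : win lam (j + (N + i)) j = 0 := by
      unfold win
      rw [if_pos (by omega)]
      exact h0 _ (by omega)
    rw [this, zero_mul]
  · intro i hi
    have : win lam i j = 0 := by
      unfold win
      rw [if_neg (by have := Finset.mem_range.1 hi; omega)]
    rw [this, zero_mul]

/-- integer form of the sufficiency statement -/
theorem exists_seq (K M : ℕ) (hK : 0 < K) (hM : 0 < M) {T : Set ℤ} (hT : T.Finite)
    (hT0 : 0 ∈ T) {κ : Type} [Finite κ] (χ : ℤ → κ) :
    ∃ (Y : ℕ → ℤ) (col : κ), ∀ (lam : ℕ → ℤ) (lo hi : ℕ), (∀ i, lam i ∈ T) → lo ≤ hi →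
      (∀ i, i < lo → lam i = 0) → (∀ i, hi < i → lam i = 0) → lam lo = M → lam hi = M →
      (hi < lo + K ∨ ∀ i, lam i = 0 ∨ lam i = M) →
      0 < ∑ i ∈ Finset.range (hi + 1), lam i * Y i ∧
        χ (∑ i ∈ Finset.range (hi + 1), lam i * Y i) = col := by
  classical
  obtain ⟨e, U, hpos, hee, hmin, hU⟩ := exists_key_forms K M hM
  obtain ⟨col, hcol⟩ := Ultrafilter.eq_pure_of_finite (Ultrafilter.map χ e)
  have hc : ∀ᶠ x in (e : Filter ℤ), χ x = col := by
    have : ∀ᶠ x in (Ultrafilter.map χ e : Filter κ), x = col := by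
      rw [hcol]; simp
    simpa only [Ultrafilter.coe_map, Filter.eventually_map] using this
  let Φ : Set ((ℕ → ℤ) → ℤ) := {f | ∃ a : ℕ → ℤ, (∀ j, a j ∈ T) ∧ f = form K a}
  have hΦ : Φ.Finite := finite_forms K hT
  let Q : Set (Ultrafilter ℤ) :=
    insert (pure 0) (insert e ((fun f => Ultrafilter.map f U) '' Φ))
  have hQ : Q.Finite := ((hΦ.image _).insert _).insert _
  obtain ⟨x, hx⟩ := construct_words U Φ hΦ Q hQ e (fun t => 0 < t ∧ χ t = col) (hpos.and hc)
  refine ⟨fun i => ∑ j ∈ Finset.range K, x (i + j) j, col, ?_⟩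
  intro lam lo hi hlam hle hlo hhi h1 h2 hcase
  rw [← sum_win K (hi + 1) lam (fun i h => hhi i (by omega)) x]
  let E : ℕ → Ultrafilter ℤ := fun n => Ultrafilter.map (form K (win lam n)) U
  have hw : ∀ n, form K (win lam n) ∈ Φ := fun n => ⟨_, fun j => by
    unfold win
    split_ifs
    · exact hlam _
    · exact hT0, rfl⟩
  have hEE : ∀ n, E n + E n = E n := fun n => (hU _).1
  have hE0 : ∀ n, n < lo ∨ hi + K ≤ n → E n = pure 0 := by
    intro n hn
    refine (hU _).2.1 fun l hl => ?_
    unfold win
    split_ifs with h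
    · rcases hn with hn | hn
      · exact hlo _ (by omega)
      · exact hhi _ (by omega)
    · rfl
  have hEL : ∀ n, lo ≤ n → n < lo + K → ∃ w, E n = w + e := by
    intro n ha hb
    refine (hU _).2.2.1 (n - lo) (by omega) ?_ fun l hl _ => ?_
    · unfold win
      rw [if_pos (by omega), show n - (n - lo) = lo by omega, h1]
    · unfold win
      split_ifs with h
      · exact hlo _ (by omega)
      · rfl
  have hER : ∀ n, hi ≤ n → n < hi + K → E n + e = e := by
    intro n ha hb
    obtain ⟨w, hw⟩ : ∃ w, E n = e + w := by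
      refine (hU _).2.2.2 (n - hi) (by omega) ?_ fun l hl => ?_
      · unfold win
        rw [if_pos (by omega), show n - (n - hi) = hi by omega, h2]
      · unfold win
        rw [if_pos (by omega)]
        exact hhi _ (by omega)
    exact absorb_right hee hmin (hEE n) hw
  have hlast : E (hi + K - 1) = e := by
    obtain ⟨w, hw⟩ : ∃ w, E (hi + K - 1) = w + e := by
      refine (hU _).2.2.1 (K - 1) (by omega) ?_ fun l hl _ => by omega
      unfold win
      rw [if_pos (by omega), show hi + K - 1 - (K - 1) = hi by omega, h2]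
    have := hER (hi + K - 1) (by omega) (by omega)
    rw [hw, add_assoc, hee, ← hw] at this
    exact this
  have hfirst : E lo = e := by
    obtain ⟨w, hw⟩ := hEL lo le_rfl (by omega)
    obtain ⟨w', hw'⟩ : ∃ w, E lo = e + w := by
      refine (hU _).2.2.2 0 hK ?_ fun l hl => by omega
      unfold win
      rw [if_pos (by omega), Nat.sub_zero, h1]
    exact eq_of_both hee hmin (hEE lo) hw' hw
  have hQ0 : (pure 0 : Ultrafilter ℤ) ∈ Q := Or.inl rfl
  have hQe : e ∈ Q := Or.inr (Or.inl rfl)
  have hQE : ∀ n, E n ∈ Q := fun n => Or.inr (Or.inr ⟨_, hw n, rfl⟩)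
  rcases hcase with hcase | hcase
  · let σ : ℕ → Ultrafilter ℤ := fun n =>
      if lo < n ∧ n < hi then E n else if n < hi + K then e else pure 0
    have s1 : ∀ n, lo < n → n < hi → σ n = E n := fun n a b => if_pos ⟨a, b⟩
    have s2 : ∀ n, n ≤ lo ∨ hi ≤ n → n < hi + K → σ n = e := fun n a b => by
      simp only [σ]
      rw [if_neg (by omega), if_pos b]
    have s3 : ∀ n, hi + K ≤ n → σ n = pure 0 := fun n a => by
      simp only [σ]
      rw [if_neg (by omega), if_neg (by omega)]
    have s4 : ∀ n, n < hi + K → e + σ n = e := fun n a => by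
      by_cases h : lo < n ∧ n < hi
      · rw [s1 n h.1 h.2]
        obtain ⟨w, hw⟩ := hEL n (by omega) (by omega)
        exact absorb_left hmin (hEE n) hw
      · rw [s2 n (by omega) a, hee]
    refine hx (hi + 1 + K) _ σ hw (fun n => ?_) (s2 0 (by omega) (by omega)) (s3 _ (by omega))
      fun n hn => ?_
    · simp only [σ]
      split_ifs
      exacts [hQE n, hQe, hQ0]
    · change σ n = E n + σ (n + 1)
      by_cases c1 : n < lo
      · rw [hE0 n (Or.inl c1), pure_zero_add, s2 n (by omega) (by omega),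
          s2 (n + 1) (by omega) (by omega)]
      by_cases c2 : hi + K ≤ n
      · rw [hE0 n (Or.inr c2), pure_zero_add, s3 n c2, s3 (n + 1) (by omega)]
      by_cases c3 : n = hi + K - 1
      · rw [s2 n (by omega) (by omega), s3 (n + 1) (by omega), add_pure_zero, c3, hlast]
      by_cases c4 : hi ≤ n
      · rw [s2 n (by omega) (by omega), s2 (n + 1) (by omega) (by omega), hER n c4 (by omega)]
      by_cases c5 : n = lo
      · rw [s2 n (by omega) (by omega), c5, hfirst, s4 _ (by omega)]
      · obtain ⟨w, hw⟩ := hEL n (by omega) (by omega)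
        rw [s1 n (by omega) (by omega), hw, add_assoc, s4 _ (by omega)]
  · have hE : ∀ n, E n + e = e := by
      intro n
      by_cases h : ∃ j, j < K ∧ win lam n j ≠ 0
      · obtain ⟨hj1, hj2⟩ := Nat.find_spec h
        obtain ⟨w, hw⟩ : ∃ w, E n = e + w := by
          refine (hU _).2.2.2 (Nat.find h) hj1 ?_ fun l hl => ?_
          · revert hj2
            unfold win
            split_ifs
            · exact fun h' => (hcase _).resolve_left h'
            · exact fun h' => absurd rfl h'
          · by_contra hne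
            exact Nat.find_min h hl ⟨by omega, hne⟩
        exact absorb_right hee hmin (hEE n) hw
      · have : E n = pure 0 := (hU _).2.1 fun l hl => by
          by_contra hne
          exact h ⟨l, hl, hne⟩
        rw [this, pure_zero_add]
    let σ : ℕ → Ultrafilter ℤ := fun n => if n < hi + K then e else pure 0
    have s2 : ∀ n, n < hi + K → σ n = e := fun n b => if_pos b
    have s3 : ∀ n, hi + K ≤ n → σ n = pure 0 := fun n a => if_neg (by omega)
    refine hx (hi + 1 + K) _ σ hw (fun n => ?_) (s2 0 (by omega)) (s3 _ (by omega))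
      fun n hn => ?_
    · simp only [σ]
      split_ifs
      exacts [hQe, hQ0]
    · change σ n = E n + σ (n + 1)
      by_cases c2 : hi + K ≤ n
      · rw [hE0 n (Or.inr c2), pure_zero_add, s3 n c2, s3 (n + 1) (by omega)]
      by_cases c3 : n = hi + K - 1
      · rw [s2 n (by omega), s3 (n + 1) (by omega), add_pure_zero, c3, hlast]
      · rw [s2 n (by omega), s2 (n + 1) (by omega), hE n]

theorem exists_den (s : Finset ℚ) : ∃ M : ℕ, 0 < M ∧ ∀ q ∈ s, ∃ z : ℤ, (z : ℚ) = M * q := by
  refine ⟨∏ q ∈ s, q.den, Finset.prod_pos fun q _ => q.den_pos, fun q hq => ?_⟩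
  obtain ⟨c, hc⟩ := Finset.dvd_prod_of_mem (fun q : ℚ => q.den) hq
  refine ⟨c * q.num, ?_⟩
  rw [hc]
  push_cast
  rw [← Rat.mul_den_eq_num]
  ring

theorem exists_den_poly (P : Finset (Polynomial ℚ)) : ∃ (M : ℕ) (lam : Polynomial ℚ → ℕ → ℤ),
    0 < M ∧ ∀ p ∈ P, ∀ i, (lam p i : ℚ) = M * p.coeff i := by
  classical
  obtain ⟨M, hM, h⟩ := exists_den (insert 0 (P.biUnion fun p => p.support.image p.coeff))
  have : ∀ (p : Polynomial ℚ) (i : ℕ), ∃ z : ℤ, p ∈ P → (z : ℚ) = M * p.coeff i := by
    intro p i
    by_cases hp : p ∈ P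
    · obtain ⟨z, hz⟩ := h (p.coeff i) (by
        by_cases hi : p.coeff i = 0
        · simp [hi]
        · exact Finset.mem_insert_of_mem (Finset.mem_biUnion.2 ⟨p, hp,
            Finset.mem_image_of_mem _ (Polynomial.mem_support_iff.2 hi)⟩))
      exact ⟨z, fun _ => hz⟩
    · exact ⟨0, fun h => absurd h hp⟩
  choose lam hlam using this
  exact ⟨M, lam, hM, fun p hp i => hlam p i hp⟩

theorem sufficient (P : Finset (Polynomial ℚ))
    (hP : ∀ p ∈ P, p.trailingCoeff = 1 ∧ p.leadingCoeff = 1) (r : ℕ) (c : ℕ → Fin r) :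
    ∃ y : ℕ → ℕ, (∀ n, 0 < y n) ∧ ∃ col : Fin r,
      (∀ s : Finset ℕ, s.Nonempty → c (∑ i ∈ s, y i) = col) ∧
      ∀ p ∈ P, ∀ n : ℕ, ∃ z : ℕ, 0 < z ∧
        (z : ℚ) = ∑ i ∈ p.support, p.coeff i * (y (n + i) : ℚ) ∧ c z = col := by
  classical
  obtain ⟨M, lam, hM, hlam⟩ := exists_den_poly P
  have hMq : (M : ℚ) ≠ 0 := by exact_mod_cast hM.ne'
  have hz : ∀ p ∈ P, ∀ i, p.coeff i = 0 → lam p i = 0 := fun p hp i h => by
    have := hlam p hp i
    rw [h, mul_zero] at this
    exact_mod_cast this
  have ho : ∀ p ∈ P, ∀ i, p.coeff i = 1 → lam p i = M := fun p hp i h => by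
    have := hlam p hp i
    rw [h, mul_one] at this
    exact_mod_cast this
  let T : Finset ℤ := insert 0 (insert (M : ℤ) (P.biUnion fun p => p.support.image (lam p)))
  obtain ⟨Y, col, hY⟩ := exists_seq (P.sup Polynomial.natDegree + 1) M (Nat.succ_pos _) hM
    T.finite_toSet (by simp [T]) (fun t : ℤ => c t.toNat)
  have hFS : ∀ s : Finset ℕ, s.Nonempty →
      0 < ∑ i ∈ s, (M : ℤ) * Y i ∧ c (∑ i ∈ s, (M : ℤ) * Y i).toNat = col := by
    intro s hs
    have h := hY (fun i => if i ∈ s then M else 0) (s.min' hs) (s.max' hs)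
      (fun i => by split_ifs <;> simp [T]) (s.min'_le_max' hs)
      (fun i hi => if_neg fun h => absurd (s.min'_le i h) (by omega))
      (fun i hi => if_neg fun h => absurd (s.le_max' i h) (by omega))
      (if_pos (s.min'_mem hs)) (if_pos (s.max'_mem hs))
      (Or.inr fun i => by split_ifs <;> simp)
    have e : ∑ i ∈ Finset.range (s.max' hs + 1), (if i ∈ s then (M : ℤ) else 0) * Y i =
        ∑ i ∈ s, (M : ℤ) * Y i := by
      symm
      refine Finset.sum_subset_zero_on_sdiff (fun i hi => Finset.mem_range.2 ?_)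
        (fun i hi => ?_) fun i hi => by rw [if_pos hi]
      · have := s.le_max' i hi
        omega
      · rw [if_neg (Finset.mem_sdiff.1 hi).2, zero_mul]
    rwa [e] at h
  have hpos : ∀ n, 0 < (M : ℤ) * Y n := fun n => by
    simpa using (hFS {n} (Finset.singleton_nonempty n)).1
  have hcast : ∀ n, (((M : ℤ) * Y n).toNat : ℤ) = M * Y n := fun n =>
    Int.toNat_of_nonneg (hpos n).le
  refine ⟨fun n => ((M : ℤ) * Y n).toNat, fun n => ?_, col, fun s hs => ?_, fun p hp n => ?_⟩
  · exact Int.lt_toNat.2 (by simpa using hpos n)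
  · rw [← (hFS s hs).2]
    congr 1
    apply Int.ofNat_injective
    simp only [Int.ofNat_eq_natCast]
    rw [Int.toNat_of_nonneg (hFS s hs).1.le]
    push_cast
    exact Finset.sum_congr rfl fun i _ => hcast i
  · have hp0 : p ≠ 0 := fun h => by simpa [h] using (hP p hp).2
    have h := hY (fun i => if n ≤ i then lam p (i - n) else 0) (n + p.natTrailingDegree)
      (n + p.natDegree) (fun i => ?_) (by have := p.natTrailingDegree_le_natDegree; omega)
      (fun i hi => ?_) (fun i hi => ?_) ?_ ?_ (Or.inl ?_)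
    · have e : ∑ i ∈ Finset.range (n + p.natDegree + 1),
          (if n ≤ i then lam p (i - n) else 0) * Y i =
          ∑ i ∈ Finset.range (p.natDegree + 1), lam p i * Y (n + i) := by
        rw [add_assoc, Finset.sum_range_add, Finset.sum_eq_zero, zero_add]
        · exact Finset.sum_congr rfl fun i _ => by simp
        · intro i hi
          rw [if_neg (by have := Finset.mem_range.1 hi; omega), zero_mul]
      rw [e] at h
      refine ⟨(∑ i ∈ Finset.range (p.natDegree + 1), lam p i * Y (n + i)).toNat,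
        by have := h.1; omega, ?_, h.2⟩
      rw [← Int.cast_natCast, Int.toNat_of_nonneg h.1.le]
      push_cast
      symm
      refine Finset.sum_subset_zero_on_sdiff p.supp_subset_range_natDegree_succ
        (fun i hi => ?_) fun i _ => ?_
      · rw [hz p hp i (Polynomial.notMem_support_iff.1 (Finset.mem_sdiff.1 hi).2)]
        simp
      · rw [← Int.cast_natCast, hcast, hlam p hp i]
        push_cast
        ring
    · split_ifs
      · by_cases h : p.coeff (i - n) = 0
        · simp [T, hz p hp _ h]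
        · exact Finset.mem_insert_of_mem (Finset.mem_insert_of_mem (Finset.mem_biUnion.2
            ⟨p, hp, Finset.mem_image_of_mem _ (Polynomial.mem_support_iff.2 h)⟩))
      · simp [T]
    · split_ifs
      · exact hz p hp _ (Polynomial.coeff_eq_zero_of_lt_natTrailingDegree (by omega))
      · rfl
    · rw [if_pos (by omega)]
      exact hz p hp _ (Polynomial.coeff_eq_zero_of_natDegree_lt (by omega))
    · rw [if_pos (by omega), Nat.add_sub_cancel_left]
      exact ho p hp _ (hP p hp).1
    · rw [if_pos (by omega), Nat.add_sub_cancel_left]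
      exact ho p hp _ (hP p hp).2
    · have := Finset.le_sup (f := Polynomial.natDegree) hp
      omega

end Pool.Agent.P.MP_25e1d2_co
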