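import Pool.Agent.P.MP_25e1d2_co.Gen2

/-! Necessity: the first and the last coefficient of a pattern must be 1. -/

set_option autoImplicit false

namespace Pool.Agent.P.MP_25e1d2_co

/-- the finite sums and all shifts of the pattern `p` can be given one colour -/
def Reg (p : Polynomial ℚ) : Prop :=
  ∀ (κ : Type) [Fintype κ] (c : ℕ → κ), ∃ y : ℕ → ℕ, (∀ n, 0 < y n) ∧ ∃ col : κ,
    (∀ s : Finset ℕ, s.Nonempty → c (∑ i ∈ s, y i) = col) ∧
    ∀ n : ℕ, ∃ z : ℕ, 0 < z ∧
      (z : ℚ) = ∑ i ∈ p.support, p.coeff i * (y (n + i) : ℚ) ∧ c z = col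

theorem Reg.ne_zero {p : Polynomial ℚ} (h : Reg p) : p ≠ 0 := by
  rintro rfl
  obtain ⟨y, -, col, -, h2⟩ := h Unit fun _ => ()
  obtain ⟨z, hz, h3, -⟩ := h2 0
  simp only [Polynomial.support_zero, Finset.sum_empty, Nat.cast_eq_zero] at h3
  omega

theorem digit_eq {q : ℕ} (hq : q.Prime) {z v : ℕ} (hz : 0 < z) {M w : ℤ}
    (hM : (M : ZMod q) ≠ 0) (hw : (w : ZMod q) ≠ 0) (h : M * z = (q : ℤ) ^ v * w) :
    (M : ZMod q) * ((ordCompl[q] z : ℕ) : ZMod q) = w := by
  have := Fact.mk hq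
  have h1 : ((q : ℤ) ^ z.factorization q) * ((ordCompl[q] z : ℕ) : ℤ) = z := by
    exact_mod_cast Nat.ordProj_mul_ordCompl_eq_self z q
  have hu : ((ordCompl[q] z : ℕ) : ZMod q) ≠ 0 := fun h0 =>
    Nat.not_dvd_ordCompl hq hz.ne' ((ZMod.natCast_eq_zero_iff _ _).1 h0)
  have hq0 : (q : ℤ) ≠ 0 := by exact_mod_cast hq.ne_zero
  generalize ordCompl[q] z = u at h1 hu
  generalize z.factorization q = t at h1
  rw [← h1] at h
  rcases lt_trichotomy t v with hl | rfl | hl
  · obtain ⟨k, rfl⟩ := Nat.exists_eq_add_of_lt hl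
    have h2 : M * u = q ^ (k + 1) * w := by
      apply mul_left_cancel₀ (pow_ne_zero t hq0)
      rw [mul_left_comm, h]; ring
    have h3 := congrArg (Int.cast : ℤ → ZMod q) h2
    simp [hM, hu] at h3
  · have h2 : M * u = w := by
      apply mul_left_cancel₀ (pow_ne_zero t hq0)
      rw [mul_left_comm, h]
    have h3 := congrArg (Int.cast : ℤ → ZMod q) h2
    simpa using h3
  · obtain ⟨k, rfl⟩ := Nat.exists_eq_add_of_lt hl
    have h2 : M * (q ^ (k + 1) * u) = w := by
      apply mul_left_cancel₀ (pow_ne_zero v hq0)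
      rw [← h]; ring
    have h3 := congrArg (Int.cast : ℤ → ZMod q) h2
    simp [hw.symm] at h3

theorem Reg.trailing {p : Polynomial ℚ} (h : Reg p) : p.trailingCoeff = 1 := by
  classical
  have hp0 := h.ne_zero
  obtain ⟨M, lam', hM, hlam'⟩ := exists_den_poly {p}
  have hlam := hlam' p (Finset.mem_singleton_self p)
  set lam := lam' p
  set d := p.natTrailingDegree with hd
  have hMq : (M : ℚ) ≠ 0 := by exact_mod_cast hM.ne'
  have hl0 : lam d ≠ 0 := fun h0 => by
    have := hlam d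
    rw [h0, Int.cast_zero, eq_comm, mul_eq_zero] at this
    exact this.elim hMq (Polynomial.coeff_natTrailingDegree_ne_zero.2 hp0)
  obtain ⟨q, hq1, hq⟩ := Nat.exists_infinite_primes (M + (lam d).natAbs + 3)
  have := Fact.mk hq
  have small : ∀ t : ℤ, t.natAbs < q → (t : ZMod q) = 0 → t = 0 := fun t ht h0 =>
    Int.eq_zero_of_dvd_of_natAbs_lt_natAbs ((ZMod.intCast_zmod_eq_zero_iff_dvd t q).1 h0)
      (by simpa using ht)
  obtain ⟨y, hy, col, h1, h2⟩ := h (ZMod q) fun x => ((ordCompl[q] x : ℕ) : ZMod q)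
  have hu : ∀ n, ((ordCompl[q] (y n) : ℕ) : ZMod q) = col := fun n => by
    simpa using h1 {n} (Finset.singleton_nonempty n)
  have hcol : col ≠ 0 := fun h0 => Nat.not_dvd_ordCompl hq (hy 0).ne'
    ((ZMod.natCast_eq_zero_iff _ _).1 ((hu 0).trans h0))
  have hyv : ∀ n, ((q : ℤ) ^ (y n).factorization q) * ((ordCompl[q] (y n) : ℕ) : ℤ) = y n :=
    fun n => by exact_mod_cast Nat.ordProj_mul_ordCompl_eq_self (y n) q
  have hinj : ∀ m n, m ≠ n → (y m).factorization q ≠ (y n).factorization q := by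
    intro m n hmn hv
    have h3 := h1 {m, n} (by simp)
    rw [Finset.sum_pair hmn] at h3
    have two : (2 : ZMod q) ≠ 0 := fun h0 => by
      have := small 2 (by simp; omega) (by exact_mod_cast h0)
      omega
    have hw : (((ordCompl[q] (y m) : ℕ) + (ordCompl[q] (y n) : ℕ) : ℤ) : ZMod q) = 2 * col := by
      rw [Int.cast_add, Int.cast_natCast, Int.cast_natCast, hu, hu, two_mul]
    have h4 := digit_eq hq (z := y m + y n) (v := (y n).factorization q)
      (by have := hy m; omega) (M := 1)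
      (w := (ordCompl[q] (y m) : ℕ) + (ordCompl[q] (y n) : ℕ)) (by simp)
      (by rw [hw]; exact mul_ne_zero two hcol)
      (by rw [mul_add, hyv n, ← hv, hyv m]; push_cast; ring)
    rw [hw, h3, Int.cast_one, one_mul, two_mul] at h4
    exact hcol (by simpa using h4)
  obtain ⟨n, hn⟩ : ∃ n, ∀ m, (y (n + d)).factorization q ≤ (y (m + d)).factorization q :=
    ⟨Function.argmin fun n => (y (n + d)).factorization q, fun m =>
      Function.argmin_le (fun n => (y (n + d)).factorization q) m⟩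
  obtain ⟨z, hz, h3, h4⟩ := h2 n
  have hge : ∀ i ∈ p.support, d ≤ i := fun i hi => Polynomial.natTrailingDegree_le_of_mem_supp i hi
  have hv : ∀ i ∈ p.support, (y (n + d)).factorization q ≤ (y (n + i)).factorization q := by
    intro i hi
    have := hn (n + i - d)
    rwa [show n + i - d + d = n + i by have := hge i hi; omega] at this
  have hw : ((∑ i ∈ p.support, lam i * ((q : ℤ) ^ ((y (n + i)).factorization q -
      (y (n + d)).factorization q) * (ordCompl[q] (y (n + i)) : ℕ)) : ℤ) : ZMod q) =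
      lam d * col := by
    rw [Int.cast_sum, Finset.sum_eq_single d]
    · rw [Nat.sub_self, pow_zero, one_mul, Int.cast_mul, Int.cast_natCast, hu]
    · intro i hi hne
      have h5 := hv i hi
      have h6 := hinj (n + d) (n + i) (by omega)
      rw [Int.cast_mul, Int.cast_mul, Int.cast_pow, Int.cast_natCast, ZMod.natCast_self,
        zero_pow (by omega), zero_mul, mul_zero]
    · intro hi
      exact absurd (Polynomial.natTrailingDegree_mem_support_of_nonzero hp0) hi
  have hMz : ((M : ℤ) : ZMod q) ≠ 0 := fun h0 => by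
    have := small M (by simp; omega) h0
    omega
  have hlz : ((lam d : ℤ) : ZMod q) ≠ 0 := fun h0 => hl0 (small _ (by omega) h0)
  have h5 := digit_eq hq hz (v := (y (n + d)).factorization q) hMz
    (by rw [hw]; exact mul_ne_zero hlz hcol) (by
      have : ((M : ℤ) * z : ℤ) = ∑ i ∈ p.support, lam i * y (n + i) := by
        have h6 : (M : ℚ) * z = ∑ i ∈ p.support, (lam i : ℚ) * y (n + i) := by
          rw [h3, Finset.mul_sum]
          exact Finset.sum_congr rfl fun i _ => by rw [hlam, mul_assoc]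
        exact_mod_cast h6
      rw [this, Finset.mul_sum]
      refine Finset.sum_congr rfl fun i hi => ?_
      rw [mul_left_comm, ← mul_assoc ((q : ℤ) ^ _), ← pow_add,
        Nat.add_sub_cancel' (hv i hi), hyv])
  rw [hw, h4] at h5
  have h6 : (((M : ℤ) - lam d : ℤ) : ZMod q) = 0 := by
    rw [Int.cast_sub, mul_right_cancel₀ hcol h5, sub_self]
  have h7 : lam d = M := by
    have := small _ (by omega) h6
    omega
  have h8 := hlam d
  rw [h7, Int.cast_natCast] at h8
  exact (mul_left_cancel₀ hMq (h8.symm.trans (mul_one _).symm))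

theorem same_colour {b : ℝ} (hb : 1 < b) (T : ℕ) {x x' : ℝ} (hx : 0 < x) (hx' : 0 < x')
    (h : ((⌊Real.logb b x⌋ : ℤ) : ZMod (T + 1)) = ((⌊Real.logb b x'⌋ : ℤ) : ZMod (T + 1)))
    (h1 : x' < b ^ T * x) (h2 : x < b ^ T * x') : x' < b * x ∧ x < b * x' := by
  have hb0 : 0 < b := by linarith
  have lg : ∀ (k : ℕ) (u : ℝ), 0 < u → Real.logb b (b ^ k * u) = k + Real.logb b u := by
    intro k u hu
    rw [Real.logb_mul (pow_pos hb0 k).ne' hu.ne', Real.logb_pow, Real.logb_self_eq_one hb,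
      mul_one]
  have a1 := (Real.logb_lt_logb_iff hb hx' (mul_pos (pow_pos hb0 T) hx)).2 h1
  have a2 := (Real.logb_lt_logb_iff hb hx (mul_pos (pow_pos hb0 T) hx')).2 h2
  rw [lg T _ hx] at a1
  rw [lg T _ hx'] at a2
  have hd := (ZMod.intCast_eq_intCast_iff_dvd_sub _ _ _).1 h
  have f1 := Int.floor_le (Real.logb b x)
  have f2 := Int.lt_floor_add_one (Real.logb b x)
  have f3 := Int.floor_le (Real.logb b x')
  have f4 := Int.lt_floor_add_one (Real.logb b x')
  have h0 : ⌊Real.logb b x'⌋ - ⌊Real.logb b x⌋ = 0 := by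
    refine Int.eq_zero_of_abs_lt_dvd hd (abs_lt.2 ⟨?_, ?_⟩)
    · have : -((T : ℝ) + 1) < (⌊Real.logb b x'⌋ : ℝ) - ⌊Real.logb b x⌋ := by linarith
      exact_mod_cast this
    · have : (⌊Real.logb b x'⌋ : ℝ) - ⌊Real.logb b x⌋ < (T : ℝ) + 1 := by linarith
      exact_mod_cast this
  have h0' : (⌊Real.logb b x'⌋ : ℝ) = ⌊Real.logb b x⌋ := by
    exact_mod_cast sub_eq_zero.1 h0
  have l1 := lg 1 x hx
  have l2 := lg 1 x' hx'
  rw [pow_one, Nat.cast_one] at l1 l2
  exact ⟨(Real.logb_lt_logb_iff hb hx' (mul_pos hb0 hx)).1 (by linarith),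
    (Real.logb_lt_logb_iff hb hx (mul_pos hb0 hx')).1 (by linarith)⟩

theorem exists_record {y : ℕ → ℕ} (hy : Function.Injective y) (D : ℕ) :
    ∃ n, ∀ m < n + D, y m ≤ y (n + D) := by
  obtain ⟨N, hN⟩ : ∃ N, (Finset.range D).sup y < y N := by
    by_contra hne
    push Not at hne
    exact Set.infinite_range_of_injective hy
      ((Set.finite_le_nat _).subset (by rintro _ ⟨N, rfl⟩; exact hne N))
  obtain ⟨t, ht, hmax⟩ := Finset.exists_max_image (Finset.range (N + 1)) y ⟨0, by simp⟩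
  have h1 := hmax N (by simp)
  have h2 : D ≤ t := by
    by_contra hlt
    have := Finset.le_sup (f := y) (Finset.mem_range.2 (not_le.1 hlt))
    omega
  refine ⟨t - D, fun m hm => ?_⟩
  rw [Nat.sub_add_cancel h2] at hm ⊢
  exact hmax m (Finset.mem_range.2 (by have := Finset.mem_range.1 ht; omega))

theorem Reg.leading {p : Polynomial ℚ} (h : Reg p) : p.leadingCoeff = 1 := by
  classical
  have hp0 := h.ne_zero
  by_contra hne
  set D := p.natDegree with hD
  set c : ℝ := (p.leadingCoeff : ℝ) with hc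
  have hc0 : c ≠ 0 := by
    rw [hc]; exact_mod_cast Polynomial.leadingCoeff_ne_zero.2 hp0
  have hc1 : c - 1 ≠ 0 := by
    rw [hc, sub_ne_zero]; exact_mod_cast hne
  set C : ℝ := ∑ i ∈ Finset.range D, |(p.coeff i : ℝ)| with hC
  have hC0 : 0 ≤ C := Finset.sum_nonneg fun i _ => abs_nonneg _
  obtain ⟨η, hη0, hη1, hη2, hη3⟩ : ∃ η : ℝ, 0 < η ∧ η ≤ 1 / 2 ∧ (2 * C + 2) * η ≤ |c| ∧
      (2 * C + 2) * η ≤ |c - 1| := by
    have hpos : 0 < 2 * C + 2 := by linarith
    refine ⟨min (1 / 2) (min |c| |c - 1| / (2 * C + 2)), lt_min (by norm_num)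
      (div_pos (lt_min (abs_pos.2 hc0) (abs_pos.2 hc1)) hpos), min_le_left _ _, ?_, ?_⟩
    · rw [mul_comm, ← le_div_iff₀ hpos]
      exact (min_le_right _ _).trans (div_le_div_of_nonneg_right (min_le_left _ _) hpos.le)
    · rw [mul_comm, ← le_div_iff₀ hpos]
      exact (min_le_right _ _).trans (div_le_div_of_nonneg_right (min_le_right _ _) hpos.le)
  have hb : (1 : ℝ) < 1 + η := by linarith
  obtain ⟨T, hT⟩ := pow_unbounded_of_one_lt (2 + 2 * |c| + 2 / |c|) hb
  have hca := abs_pos.2 hc0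
  have hcd : 0 < 2 / |c| := by positivity
  obtain ⟨y, hy, col, h1, h2⟩ := h (ZMod (T + 1))
    fun x => ((⌊Real.logb (1 + η) (x : ℝ)⌋ : ℤ) : ZMod (T + 1))
  have hyr : ∀ n, (0 : ℝ) < y n := fun n => by exact_mod_cast hy n
  have hu : ∀ n, ((⌊Real.logb (1 + η) (y n : ℝ)⌋ : ℤ) : ZMod (T + 1)) = col := fun n => by
    simpa using h1 {n} (Finset.singleton_nonempty n)
  have hsep : ∀ m n, m ≠ n → y m ≤ y n → (y m : ℝ) < η * y n := by
    intro m n hmn hle
    have h3 := h1 {m, n} (by simp)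
    rw [Finset.sum_pair hmn, Nat.cast_add] at h3
    have hle' : (y m : ℝ) ≤ y n := by exact_mod_cast hle
    have a1 := hyr m
    have a2 := hyr n
    have := (same_colour hb T a2 (add_pos a1 a2) ((hu n).trans h3.symm)
      (by nlinarith) (by nlinarith)).1
    linarith
  have hinj : Function.Injective y := by
    intro m n hmn
    by_contra hne'
    have := hsep m n hne' hmn.le
    rw [hmn] at this
    nlinarith [hyr n]
  obtain ⟨n, hn⟩ := exists_record hinj D
  obtain ⟨z, hz, h3, h4⟩ := h2 n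
  have hzr : (0 : ℝ) < z := by exact_mod_cast hz
  set Y : ℝ := ((y (n + D) : ℕ) : ℝ) with hY
  have hY0 : 0 < Y := hyr _
  have hzY : |(z : ℝ) - c * Y| ≤ C * (η * Y) := by
    have e1 : (z : ℚ) = ∑ i ∈ Finset.range (D + 1), p.coeff i * (y (n + i) : ℚ) := by
      rw [h3]
      refine Finset.sum_subset p.supp_subset_range_natDegree_succ fun i _ hi => ?_
      rw [Polynomial.notMem_support_iff.1 hi, zero_mul]
    have e2 : (z : ℝ) = ∑ i ∈ Finset.range (D + 1), (p.coeff i : ℝ) * (y (n + i) : ℝ) := by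
      exact_mod_cast congrArg (Rat.cast : ℚ → ℝ) e1
    rw [e2, Finset.sum_range_succ, show (p.coeff D : ℝ) = c from rfl, add_sub_cancel_right, hC,
      Finset.sum_mul]
    refine (Finset.abs_sum_le_sum_abs _ _).trans (Finset.sum_le_sum fun i hi => ?_)
    have hi' := Finset.mem_range.1 hi
    rw [abs_mul, abs_of_pos (hyr _)]
    exact mul_le_mul_of_nonneg_left
      (hsep (n + i) (n + D) (by omega) (hn _ (by omega))).le (abs_nonneg _)
  obtain ⟨b1, b2⟩ := abs_le.1 hzY
  have hηY : 0 < η * Y := mul_pos hη0 hY0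
  have g2 := mul_le_mul_of_nonneg_right hη2 hY0.le
  have g3 := mul_le_mul_of_nonneg_right hη3 hY0.le
  rcases lt_or_gt_of_ne hc0 with hneg | hpos
  · rw [abs_of_neg hneg] at g2
    nlinarith
  · rw [abs_of_pos hpos] at g2 hT hcd
    have hcY : 0 < c * Y := mul_pos hpos hY0
    have k1 : (z : ℝ) < 2 * c * Y := by nlinarith
    have k2 : c * Y < 2 * z := by nlinarith
    have k3 : Y < 2 / c * z := by
      rw [div_mul_eq_mul_div, lt_div_iff₀ hpos]; linarith
    obtain ⟨s1, s2⟩ := same_colour hb T hY0 hzr ((hu _).trans h4.symm)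
      (by nlinarith) (by nlinarith)
    rcases lt_or_gt_of_ne hc1 with h5 | h5
    · rw [abs_of_neg h5] at g3
      have k4 : η * z ≤ η * (Y + C * Y) := by
        refine mul_le_mul_of_nonneg_left ?_ hη0.le
        nlinarith [mul_nonneg hC0 hY0.le]
      nlinarith
    · rw [abs_of_pos h5] at g3
      nlinarith

theorem classification (P : Finset (Polynomial ℚ)) :
    (∀ (r : ℕ) (c : ℕ → Fin r), ∃ y : ℕ → ℕ, (∀ n, 0 < y n) ∧ ∃ col : Fin r,
      (∀ s : Finset ℕ, s.Nonempty → c (∑ i ∈ s, y i) = col) ∧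
      ∀ p ∈ P, ∀ n : ℕ, ∃ z : ℕ, 0 < z ∧
        (z : ℚ) = ∑ i ∈ p.support, p.coeff i * (y (n + i) : ℚ) ∧ c z = col) ↔
    ∀ p ∈ P, p.trailingCoeff = 1 ∧ p.leadingCoeff = 1 := by
  refine ⟨fun h p hp => ?_, fun h => sufficient P h⟩
  have hR : Reg p := by
    intro κ _ c
    obtain ⟨y, hy, col, h1, h2⟩ := h _ fun x => Fintype.equivFin κ (c x)
    refine ⟨y, hy, (Fintype.equivFin κ).symm col, fun s hs => ?_, fun n => ?_⟩
    · rw [← h1 s hs, Equiv.symm_apply_apply]
    · obtain ⟨z, a, b, d⟩ := h2 p hp n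
      exact ⟨z, a, b, by rw [← d, Equiv.symm_apply_apply]⟩
  exact ⟨hR.trailing, hR.leading⟩

end Pool.Agent.P.MP_25e1d2_co
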