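import Mathlib

/-!
Finite sums together with the sums `y n + 2 * y (n+1) + y (n+2)` are partition regular.

Let `e` be a minimal idempotent ultrafilter on the naturals, let `V = e ⊗ e` on pairs, and let `U`
be an idempotent with `U = V + X = Y + V`.  The images of `U` under `(a,b) ↦ a`, `b`, `a + b` are
idempotents in `(e + S) ∩ (S + e)`, hence equal to `e`.  The image `D` under `2a + b` is an
idempotent in `S + e`, so `e + D = e`; the image `E` under `a + 2b` is an idempotent in `e + S`,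
so `E + e = e`.  Choose `U`-generic pairs `(a n, b n)` and put `y n = a n + b (n+1)`.
-/

set_option autoImplicit false

namespace Pool.Agent.P.MP_25e1d2_co

open Filter Set

section General

variable {M : Type*} [AddSemigroup M]

/-- Every left ideal `S + v` of a compact right topological semigroup holds a minimal
idempotent. -/
theorem exists_min_idem [TopologicalSpace M] [CompactSpace M] [T2Space M]
    (hc : ∀ r : M, Continuous (· + r)) (v : M) :
    ∃ f : M, f + f = f ∧ (∃ y, f = y + v) ∧ ∀ x, ∃ z, z + (x + f) = f := by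
  let S : Set (Set M) :=
    {N | IsClosed N ∧ N.Nonempty ∧ ∀ x, ∀ m ∈ N, x + m ∈ N}
  have hrange : ∀ w : M, Set.range (· + w) ∈ S := by
    intro w
    refine ⟨(isCompact_range (hc w)).isClosed, ⟨w + w, w, rfl⟩, ?_⟩
    rintro x _ ⟨y, rfl⟩
    exact ⟨x + y, add_assoc _ _ _⟩
  obtain ⟨N, hNv, hN⟩ : ∃ N, N ⊆ Set.range (· + v) ∧ Minimal (· ∈ S) N := by
    refine zorn_superset_nonempty S ?_ _ (hrange v)
    intro c hcs hchain hcne
    refine ⟨⋂₀ c, ⟨isClosed_sInter fun t ht => (hcs ht).1, ?_, fun x m hm => ?_⟩,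
      fun s hs => Set.sInter_subset_of_mem hs⟩
    · have : Nonempty c := hcne.coe_sort
      rw [Set.sInter_eq_iInter]
      refine IsCompact.nonempty_iInter_of_directed_nonempty_isCompact_isClosed
        ((↑) : c → Set M) ?_ (fun i => (hcs i.prop).2.1) (fun i => (hcs i.prop).1.isCompact)
        (fun i => (hcs i.prop).1)
      exact DirectedOn.directed_val (IsChain.directedOn hchain.symm)
    · rw [Set.mem_sInter]
      exact fun t ht => (hcs ht).2.2 x m (Set.mem_sInter.mp hm t ht)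
  obtain ⟨hcl, hne, hleft⟩ := hN.prop
  obtain ⟨f, hfN, hff⟩ := exists_idempotent_in_compact_add_subsemigroup hc N hne hcl.isCompact
    (fun x _ y hy => hleft x y hy)
  refine ⟨f, hff, ?_, fun x => ?_⟩
  · obtain ⟨y, hy⟩ := hNv hfN
    exact ⟨y, hy.symm⟩
  · have hsub : Set.range (· + (x + f)) ⊆ N := by
      rintro _ ⟨y, rfl⟩
      exact hleft y _ (hleft x f hfN)
    have heq : Set.range (· + (x + f)) = N := hN.eq_of_subset (hrange _) hsub
    have : f ∈ Set.range (· + (x + f)) := heq ▸ hfN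
    exact this

/-- An idempotent in the left ideal of a minimal idempotent `f` is absorbed by `f`. -/
theorem absorb_left {f g x : M} (hmin : ∀ x, ∃ z, z + (x + f) = f)
    (hg : g + g = g) (hgx : g = x + f) : f + g = f := by
  obtain ⟨z, hz⟩ := hmin x
  rw [← hgx] at hz
  calc f + g = z + g + g := by rw [hz]
    _ = z + g := by rw [add_assoc, hg]
    _ = f := hz

/-- An idempotent in the right ideal of a minimal idempotent `f` is absorbed by `f`. -/
theorem absorb_right {f g x : M} (hf : f + f = f) (hmin : ∀ x, ∃ z, z + (x + f) = f)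
    (hg : g + g = g) (hgx : g = f + x) : g + f = f := by
  have hfg : f + g = g := by rw [hgx, ← add_assoc, hf]
  have h1 : (g + f) + (g + f) = g + f := by
    calc (g + f) + (g + f) = g + (f + g) + f := by simp only [add_assoc]
      _ = g + f := by rw [hfg, hg]
  have h2 := absorb_left hmin h1 rfl
  rwa [← add_assoc, hfg] at h2

/-- An idempotent in both ideals of a minimal idempotent `f` is `f`. -/
theorem eq_of_both {f g x y : M} (hf : f + f = f) (hmin : ∀ x, ∃ z, z + (x + f) = f)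
    (hg : g + g = g) (hgx : g = f + x) (hgy : g = y + f) : g = f := by
  have h1 := absorb_left hmin hg hgy
  have hfg : f + g = g := by rw [hgx, ← add_assoc, hf]
  rw [← hfg, h1]

/-- For every `v` there is an idempotent in `(v + S) ∩ (S + v)`. -/
theorem exists_idem_both [TopologicalSpace M] [CompactSpace M] [T2Space M]
    (hc : ∀ r : M, Continuous (· + r)) (v : M) :
    ∃ g : M, g + g = g ∧ (∃ x, g = v + x) ∧ ∃ y, g = y + v := by
  obtain ⟨f, hff, ⟨y, hy⟩, hmin⟩ := exists_min_idem hc v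
  obtain ⟨z, hz⟩ := hmin (f + v)
  refine ⟨v + f + z + f, ?_, ⟨f + z + f, by simp only [add_assoc]⟩,
    ⟨v + f + z + y, by rw [add_assoc (v + f + z) y v, ← hy]⟩⟩
  calc v + f + z + f + (v + f + z + f) = v + f + (z + (f + v + f)) + z + f := by
        simp only [add_assoc]
    _ = v + (f + f) + z + f := by rw [hz]; simp only [add_assoc]
    _ = v + f + z + f := by rw [hff]

end General

attribute [local instance] Ultrafilter.add Ultrafilter.addSemigroup

theorem map_add_ultra {M N : Type*} [Add M] [Add N] (φ : M → N)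
    (hφ : ∀ a b, φ (a + b) = φ a + φ b) (U V : Ultrafilter M) :
    Ultrafilter.map φ (U + V) = Ultrafilter.map φ U + Ultrafilter.map φ V := by
  refine Ultrafilter.coe_inj.mp (Filter.ext' fun p => ?_)
  simp only [Ultrafilter.coe_map, Filter.eventually_map, Ultrafilter.eventually_add, hφ]

/-- The key algebraic fact. -/
theorem exists_key :
    ∃ (e : Ultrafilter ℕ) (U : Ultrafilter (ℕ × ℕ)),
      (∀ᶠ x in (e : Filter ℕ), 0 < x) ∧ e + e = e ∧
      Ultrafilter.map (fun p : ℕ × ℕ => p.1) U = e ∧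
      Ultrafilter.map (fun p : ℕ × ℕ => p.2) U = e ∧
      Ultrafilter.map (fun p : ℕ × ℕ => p.1 + p.2) U = e ∧
      e + Ultrafilter.map (fun p : ℕ × ℕ => 2 * p.1 + p.2) U = e ∧
      Ultrafilter.map (fun p : ℕ × ℕ => p.1 + 2 * p.2) U + e = e := by
  obtain ⟨e, hee, ⟨y, hy⟩, hmin⟩ :=
    exists_min_idem (M := Ultrafilter ℕ) Ultrafilter.continuous_add_left (pure 1)
  let V : Ultrafilter (ℕ × ℕ) :=
    Ultrafilter.map (fun a : ℕ => (a, 0)) e + Ultrafilter.map (fun b : ℕ => (0, b)) e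
  obtain ⟨U, hUU, ⟨X, hX⟩, ⟨Y, hY⟩⟩ :=
    exists_idem_both (M := Ultrafilter (ℕ × ℕ)) Ultrafilter.continuous_add_left V
  have hV : ∀ (φ : ℕ × ℕ → ℕ) (p : ℕ → Prop),
      (∀ᶠ x in (Ultrafilter.map φ V : Filter ℕ), p x) ↔
        ∀ᶠ a in (e : Filter ℕ), ∀ᶠ b in (e : Filter ℕ), p (φ (a, b)) := by
    intro φ p
    simp only [V, Ultrafilter.coe_map, Filter.eventually_map, Ultrafilter.eventually_add,
      Prod.mk_add_mk, add_zero, zero_add]
  have key : ∀ (φ : ℕ × ℕ → ℕ), (∀ a b, φ (a + b) = φ a + φ b) →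
      Ultrafilter.map φ U + Ultrafilter.map φ U = Ultrafilter.map φ U ∧
      Ultrafilter.map φ U = Ultrafilter.map φ V + Ultrafilter.map φ X ∧
      Ultrafilter.map φ U = Ultrafilter.map φ Y + Ultrafilter.map φ V := by
    intro φ hφ
    refine ⟨?_, ?_, ?_⟩
    · rw [← map_add_ultra φ hφ, hUU]
    · rw [← map_add_ultra φ hφ, ← hX]
    · rw [← map_add_ultra φ hφ, ← hY]
  have key2 : ∀ (φ : ℕ × ℕ → ℕ), (∀ a b, φ (a + b) = φ a + φ b) →
      Ultrafilter.map φ V = e → Ultrafilter.map φ U = e := by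
    intro φ hφ h
    obtain ⟨h1, h2, h3⟩ := key φ hφ
    rw [h] at h2 h3
    exact eq_of_both hee hmin h1 h2 h3
  refine ⟨e, U, ?_, hee, ?_, ?_, ?_, ?_, ?_⟩
  · rw [hy, Ultrafilter.eventually_add]
    simp
  · refine key2 _ (fun a b => rfl) (Ultrafilter.coe_inj.mp (Filter.ext' fun p => ?_))
    rw [hV]
    simp
  · refine key2 _ (fun a b => rfl) (Ultrafilter.coe_inj.mp (Filter.ext' fun p => ?_))
    rw [hV]
    simp
  · refine key2 _ (fun a b => ?_) (Ultrafilter.coe_inj.mp (Filter.ext' fun p => ?_))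
    · simp only [Prod.fst_add, Prod.snd_add]; ring
    · rw [hV, ← Ultrafilter.eventually_add, hee]
  · obtain ⟨h1, -, h3⟩ := key (fun p : ℕ × ℕ => 2 * p.1 + p.2)
      (fun a b => by simp only [Prod.fst_add, Prod.snd_add]; ring)
    have h : Ultrafilter.map (fun p : ℕ × ℕ => 2 * p.1 + p.2) V =
        Ultrafilter.map (fun a : ℕ => 2 * a) e + e := by
      refine Ultrafilter.coe_inj.mp (Filter.ext' fun p => ?_)
      rw [hV, Ultrafilter.eventually_add]
      simp only [Ultrafilter.coe_map, Filter.eventually_map]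
    rw [h, ← add_assoc] at h3
    exact absorb_left hmin h1 h3
  · obtain ⟨h1, h2, -⟩ := key (fun p : ℕ × ℕ => p.1 + 2 * p.2)
      (fun a b => by simp only [Prod.fst_add, Prod.snd_add]; ring)
    have h : Ultrafilter.map (fun p : ℕ × ℕ => p.1 + 2 * p.2) V =
        e + Ultrafilter.map (fun a : ℕ => 2 * a) e := by
      refine Ultrafilter.coe_inj.mp (Filter.ext' fun p => ?_)
      rw [hV, Ultrafilter.eventually_add]
      simp only [Ultrafilter.coe_map, Filter.eventually_map]
    rw [h, add_assoc] at h2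
    exact absorb_right hee hmin h1 h2

/-- The combinatorial construction, from abstract largeness properties. -/
theorem construct (A H K : ℕ → Prop) (U : Filter (ℕ × ℕ)) [U.NeBot]
    (h0 : H 0) (hK0 : ∃ a, K a)
    (hstep : ∀ s, H s → ∀ᶠ p in U, H (s + p.1) ∧ H (s + p.2) ∧ A (s + p.2) ∧
      H (s + p.1 + p.2) ∧ H (s + p.1 + 2 * p.2))
    (hK : ∀ᶠ p in U, K p.1)
    (hD : ∀ a, K a → ∀ᶠ p in U, H (a + 2 * p.1 + p.2)) :
    ∃ y : ℕ → ℕ, (∀ s : Finset ℕ, s.Nonempty → A (∑ i ∈ s, y i)) ∧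
      ∀ n, A (y n + 2 * y (n + 1) + y (n + 2)) := by
  classical
  let St := {q : Finset ℕ × ℕ // (∀ s ∈ q.1, H s) ∧ K q.2}
  have hex : ∀ q : St, ∃ p : ℕ × ℕ, ∃ q' : St, q'.1.2 = p.1 ∧
      q.1.2 + 2 * p.1 + p.2 ∈ q'.1.1 ∧
      ∀ s ∈ q.1.1, s ∈ q'.1.1 ∧ s + p.1 ∈ q'.1.1 ∧ s + p.2 ∈ q'.1.1 ∧ A (s + p.2) ∧
        s + p.1 + p.2 ∈ q'.1.1 ∧ s + p.1 + 2 * p.2 ∈ q'.1.1 := by
    rintro ⟨⟨S, a⟩, hS, ha⟩
    have h1 : ∀ᶠ p in U, ∀ s ∈ S, H (s + p.1) ∧ H (s + p.2) ∧ A (s + p.2) ∧
        H (s + p.1 + p.2) ∧ H (s + p.1 + 2 * p.2) :=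
      (Filter.eventually_all_finset S).mpr fun s hs => hstep s (hS s hs)
    obtain ⟨p, hp1, hp2, hp3⟩ := (h1.and (hK.and (hD a ha))).exists
    refine ⟨p, ⟨⟨insert (a + 2 * p.1 + p.2)
      (S ∪ S.image (· + p.1) ∪ S.image (· + p.2) ∪ S.image (· + p.1 + p.2) ∪
        S.image (· + p.1 + 2 * p.2)), p.1⟩, ?_, hp2⟩, rfl, Finset.mem_insert_self _ _, ?_⟩
    · intro s hs
      simp only [Finset.mem_insert, Finset.mem_union, Finset.mem_image] at hs
      rcases hs with rfl | (((hs | ⟨t, ht, rfl⟩) | ⟨t, ht, rfl⟩) | ⟨t, ht, rfl⟩) | ⟨t, ht, rfl⟩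
      · exact hp3
      · exact hS s hs
      · exact (hp1 t ht).1
      · exact (hp1 t ht).2.1
      · exact (hp1 t ht).2.2.2.1
      · exact (hp1 t ht).2.2.2.2
    · intro s hs
      simp only [Finset.mem_insert, Finset.mem_union, Finset.mem_image]
      refine ⟨?_, ?_, ?_, (hp1 s hs).2.2.1, ?_, ?_⟩
      · exact Or.inr (Or.inl (Or.inl (Or.inl (Or.inl hs))))
      · exact Or.inr (Or.inl (Or.inl (Or.inl (Or.inr ⟨s, hs, rfl⟩))))
      · exact Or.inr (Or.inl (Or.inl (Or.inr ⟨s, hs, rfl⟩)))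
      · exact Or.inr (Or.inl (Or.inr ⟨s, hs, rfl⟩))
      · exact Or.inr (Or.inr ⟨s, hs, rfl⟩)
  choose pf nf hpf using hex
  obtain ⟨a0, ha0⟩ := hK0
  let q0 : St := ⟨⟨{0}, a0⟩, by simpa using h0, ha0⟩
  let st : ℕ → St := fun n => Nat.rec q0 (fun _ q => nf q) n
  let α : ℕ → ℕ := fun n => (pf (st n)).1
  let β : ℕ → ℕ := fun n => (pf (st n)).2
  let S : ℕ → Finset ℕ := fun n => (st n).1.1
  have hS : ∀ n, ∀ s ∈ S n, s ∈ S (n + 1) ∧ s + α n ∈ S (n + 1) ∧ s + β n ∈ S (n + 1) ∧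
      A (s + β n) ∧ s + α n + β n ∈ S (n + 1) ∧ s + α n + 2 * β n ∈ S (n + 1) :=
    fun n => (hpf (st n)).2.2
  have hT : ∀ n, α n + 2 * α (n + 1) + β (n + 1) ∈ S (n + 2) := by
    intro n
    have h1 := (hpf (st (n + 1))).2.1
    have h2 : (st (n + 1)).1.2 = α n := (hpf (st n)).1
    rw [h2] at h1
    exact h1
  have hS0 : 0 ∈ S 0 := Finset.mem_singleton_self 0
  let y : ℕ → ℕ := fun n => α n + β (n + 1)
  have hFS : ∀ m, ∀ F : Finset ℕ, F ⊆ Finset.range m →
      (∑ i ∈ F, y i) ∈ S (m + 1) ∧ (∑ i ∈ F, y i) + α m ∈ S (m + 1) ∧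
        (F.Nonempty → A (∑ i ∈ F, y i)) := by
    intro m
    induction m with
    | zero =>
      intro F hF
      have : F = ∅ := by simpa using hF
      subst this
      simp only [Finset.sum_empty]
      exact ⟨(hS 0 0 hS0).1, (hS 0 0 hS0).2.1, fun h => absurd h (by simp)⟩
    | succ m ih =>
      intro F hF
      by_cases hm : m ∈ F
      · have hF' : F.erase m ⊆ Finset.range m := by
          intro i hi
          have h1 := Finset.mem_range.mp (hF (Finset.mem_of_mem_erase hi))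
          have h2 := Finset.ne_of_mem_erase hi
          exact Finset.mem_range.mpr (by omega)
        obtain ⟨-, h2, -⟩ := ih _ hF'
        have hsum : ∑ i ∈ F, y i = (∑ i ∈ F.erase m, y i) + α m + β (m + 1) := by
          rw [← Finset.sum_erase_add F y hm, add_assoc]
        obtain ⟨-, -, h3, h4, h5, -⟩ := hS (m + 1) _ h2
        rw [hsum]
        refine ⟨h3, ?_, fun _ => h4⟩
        rw [add_right_comm _ (β (m + 1)) (α (m + 1))]
        exact h5
      · have hF' : F ⊆ Finset.range m := by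
          intro i hi
          have h1 := Finset.mem_range.mp (hF hi)
          have h2 : i ≠ m := fun h => hm (h ▸ hi)
          exact Finset.mem_range.mpr (by omega)
        obtain ⟨h1, -, h3⟩ := ih _ hF'
        exact ⟨(hS (m + 1) _ h1).1, (hS (m + 1) _ h1).2.1, h3⟩
  refine ⟨y, fun F hF => (hFS (F.sup id + 1) F ?_).2.2 hF, fun n => ?_⟩
  · intro i hi
    exact Finset.mem_range.mpr (Nat.lt_succ_of_le (Finset.le_sup (f := id) hi))
  · have h1 := (hS (n + 2) _ (hT n)).2.2.2.2.2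
    have h2 := (hS (n + 3) _ h1).2.2.2.1
    have : y n + 2 * y (n + 1) + y (n + 2) =
        α n + 2 * α (n + 1) + β (n + 1) + α (n + 2) + 2 * β (n + 2) + β (n + 3) := by
      simp only [y]; ring
    rw [this]
    exact h2

theorem main (k : ℕ) (c : ℕ → Fin k) : ∃ y : ℕ → ℕ, (∀ n, 0 < y n) ∧
      ∃ col : Fin k,
        (∀ s : Finset ℕ, s.Nonempty → c (∑ i ∈ s, y i) = col) ∧
        (∀ n : ℕ, c (y n + 2 * y (n + 1) + y (n + 2)) = col) := by
  obtain ⟨e, U, hpos, hee, h1, h2, h3, hD, hE⟩ := exists_key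
  obtain ⟨col, hcol⟩ := Ultrafilter.eq_pure_of_finite (Ultrafilter.map c e)
  have hc : ∀ᶠ x in (e : Filter ℕ), c x = col := by
    have : ∀ᶠ x in (Ultrafilter.map c e : Filter (Fin k)), x = col := by
      rw [hcol]; simp
    simpa only [Ultrafilter.coe_map, Filter.eventually_map] using this
  let A : ℕ → Prop := fun x => 0 < x ∧ c x = col
  have hA : ∀ᶠ x in (e : Filter ℕ), A x := hpos.and hc
  let H : ℕ → Prop := fun s => ∀ᶠ t in (e : Filter ℕ), A (s + t)
  let K : ℕ → Prop := fun a => ∀ᶠ p in (U : Filter (ℕ × ℕ)), H (a + 2 * p.1 + p.2)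
  have hH : ∀ s, H s → ∀ᶠ t in (e : Filter ℕ), H (s + t) := by
    intro s hs
    have : ∀ᶠ t in ((e + e : Ultrafilter ℕ) : Filter ℕ), A (s + t) := by rw [hee]; exact hs
    rw [Ultrafilter.eventually_add] at this
    simpa only [H, add_assoc] using this
  have h0 : H 0 := by simpa only [H, zero_add] using hA
  have pull : ∀ (φ : ℕ × ℕ → ℕ) (p : ℕ → Prop), Ultrafilter.map φ U = e →
      (∀ᶠ t in (e : Filter ℕ), p t) → ∀ᶠ q in (U : Filter (ℕ × ℕ)), p (φ q) := by
    intro φ p h hp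
    rw [← h] at hp
    simpa only [Ultrafilter.coe_map, Filter.eventually_map] using hp
  have hKe : ∀ᶠ a in (e : Filter ℕ), K a := by
    have h := hH 0 h0
    rw [← hD, Ultrafilter.eventually_add] at h
    simpa only [K, Ultrafilter.coe_map, Filter.eventually_map, zero_add, add_assoc] using h
  obtain ⟨y, hy1, hy2⟩ := construct A H K U h0 hKe.exists (fun s hs => by
      refine (pull _ _ h1 (hH s hs)).and ((pull _ _ h2 (hH s hs)).and
        ((pull _ (fun t => A (s + t)) h2 hs).and (Filter.Eventually.and ?_ ?_)))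
      · simpa only [add_assoc] using pull _ _ h3 (hH s hs)
      · have : ∀ᶠ t in ((Ultrafilter.map (fun p : ℕ × ℕ => p.1 + 2 * p.2) U + e :
            Ultrafilter ℕ) : Filter ℕ), A (s + t) := by rw [hE]; exact hs
        rw [Ultrafilter.eventually_add] at this
        simpa only [H, Ultrafilter.coe_map, Filter.eventually_map, add_assoc] using this)
    (pull _ _ h1 hKe) (fun a ha => ha)
  refine ⟨y, fun n => ?_, col, fun s hs => (hy1 s hs).2, fun n => (hy2 n).2⟩
  simpa using (hy1 {n} (Finset.singleton_nonempty n)).1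

end Pool.Agent.P.MP_25e1d2_co
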